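import Pool.Agent.X71.Td.Up
import Pool.Agent.X71.Td.Glue

/-!
# MP_e52bc6_co, Q1: total domination in claw-free diamond-free cubic graphs

For all `n ≥ 30` the class `C` contains a graph of order `n` iff `6 ∣ n`, and then
`g n = n / 3 + 2 * ⌊(n + 6) / 36⌋`. In particular `c* = 7 / 18`.
-/

set_option autoImplicit false

open Finset Filter Topology

namespace Pool.Agent.Results.MP_e52bc6_co.TotalDominationExact

/-- no induced claw `K_{1,3}` -/
def ClawFree {V : Type} (G : SimpleGraph V) : Prop :=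
  ¬ ∃ v a b c, G.Adj v a ∧ G.Adj v b ∧ G.Adj v c ∧ a ≠ b ∧ a ≠ c ∧ b ≠ c ∧
    ¬ G.Adj a b ∧ ¬ G.Adj a c ∧ ¬ G.Adj b c

/-- no induced diamond `K_4 - e` -/
def DiamondFree {V : Type} (G : SimpleGraph V) : Prop :=
  ¬ ∃ a b c d, G.Adj a b ∧ G.Adj a c ∧ G.Adj b c ∧ G.Adj b d ∧ G.Adj c d ∧ a ≠ d ∧ ¬ G.Adj a d

/-- the class `C` of connected claw-free diamond-free cubic graphs -/
def InClass {V : Type} (G : SimpleGraph V) : Prop :=
  G.Connected ∧ (∀ v, (G.neighborSet v).ncard = 3) ∧ ClawFree G ∧ DiamondFree G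

/-- the total domination number: the least size of a set `S` of vertices such that every vertex
has a neighbour in `S` -/
noncomputable def totalDomination {V : Type} (G : SimpleGraph V) : ℕ :=
  sInf {k | ∃ S : Finset V, S.card = k ∧ ∀ v, ∃ u ∈ S, G.Adj v u}

/-- the total domination numbers of the graphs of order `n` in the class `C` -/
def values (n : ℕ) : Set ℕ :=
  {k | ∃ (V : Type) (_ : Fintype V) (G : SimpleGraph V),
    InClass G ∧ Fintype.card V = n ∧ totalDomination G = k}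

/-- the orders of the graphs in the class `C` -/
def orders : Set ℕ := {n | (values n).Nonempty}

/-- the maximum `g n` of the total domination number over the graphs of order `n` in `C` -/
noncomputable def g (n : ℕ) : ℕ := sSup (values n)

/-- the constant `c*`: the limit superior of `g n / n` over the orders `n` of graphs in `C` -/
noncomputable def cStar : ℝ := limsup (fun n : ℕ => (g n : ℝ) / n) (atTop ⊓ 𝓟 orders)

lemma upper {V : Type} [Fintype V] {G : SimpleGraph V} (hG : InClass G)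
    (hV : 5 ≤ Fintype.card V) : 6 ∣ Fintype.card V ∧
    ∃ S : Finset V, (∀ v, ∃ u ∈ S, G.Adj v u) ∧
      S.card ≤ Fintype.card V / 3 + 2 * ((Fintype.card V + 6) / 36) := by
  classical
  obtain ⟨h1, h2, h3, h4⟩ := hG
  have hc : Pool.Agent.X71.Td.Cubic G := by
    intro v
    obtain ⟨a, b, c, hab, hac, hbc, h⟩ := Set.ncard_eq_three.mp (h2 v)
    refine ⟨a, b, c, hab, hac, hbc, fun u => ?_⟩
    rw [← SimpleGraph.mem_neighborSet, h]
    simp
  have hcf : Pool.Agent.X71.Td.ClawFree G := by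
    intro v a b c ha hb hc hab hac hbc
    by_contra h
    push Not at h
    exact h3 ⟨v, a, b, c, ha, hb, hc, hab, hac, hbc, h.1, h.2.1, h.2.2⟩
  have hdf : Pool.Agent.X71.Td.DiamondFree G := by
    intro a b c d had hab hac hbc hbd hcd
    by_contra h
    exact h4 ⟨a, b, c, d, hab, hac, hbc, hbd, hcd, had, h⟩
  obtain ⟨D⟩ := Pool.Agent.X71.Td.exists_triData h1 hc hcf hdf hV
  have hev := Pool.Agent.X71.Td.even_TT D
  have hcard := Pool.Agent.X71.Td.card_V D
  obtain ⟨S, hS, hSc⟩ := Pool.Agent.X71.Td.exists_dom D h1 hev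
  obtain ⟨k, hk⟩ := hev
  refine ⟨⟨k, by omega⟩, S, hS, ?_⟩
  omega

lemma totalDomination_le {V : Type} {G : SimpleGraph V} {S : Finset V}
    (hS : ∀ v, ∃ u ∈ S, G.Adj v u) : totalDomination G ≤ S.card :=
  Nat.sInf_le ⟨S, rfl, hS⟩

lemma values_le {n k : ℕ} (hn : 5 ≤ n) (hk : k ∈ values n) :
    6 ∣ n ∧ k ≤ n / 3 + 2 * ((n + 6) / 36) := by
  obtain ⟨V, _, G, hG, rfl, rfl⟩ := hk
  obtain ⟨h1, S, hS, hSc⟩ := upper hG hn
  exact ⟨h1, (totalDomination_le hS).trans hSc⟩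

lemma values_mem {n : ℕ} (hn : 30 ≤ n) (h6 : 6 ∣ n) :
    n / 3 + 2 * ((n + 6) / 36) ∈ values n := by
  obtain ⟨M, rfl⟩ := h6
  set t := (2 * M + 2) / 12 - 1 with ht
  set j := (2 * M - 10 - 12 * t) / 2 with hj
  have hN : 10 + 12 * t + 2 * j = 2 * M := by omega
  have h := Pool.Agent.X71.Td.Closed_all t j
  rw [hN] at h
  obtain ⟨V, _, _, G, h1, h2, h3, h4, h5, h6⟩ := h
  have hG : InClass G := by
    refine ⟨h1, ?_, ?_, ?_⟩
    · intro v
      obtain ⟨a, b, c, hab, hac, hbc, h⟩ := h2 v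
      rw [Set.ncard_eq_three]
      refine ⟨a, b, c, hab, hac, hbc, ?_⟩
      ext u
      rw [SimpleGraph.mem_neighborSet, h]
      simp
    · rintro ⟨v, a, b, c, ha, hb, hc, hab, hac, hbc, n1, n2, n3⟩
      rcases h3 v a b c ha hb hc hab hac hbc with h | h | h
      · exact n1 h
      · exact n2 h
      · exact n3 h
    · rintro ⟨a, b, c, d, hab, hac, hbc, hbd, hcd, had, h⟩
      exact h (h4 a b c d had hab hac hbc hbd hcd)
  have hcard : Fintype.card V = 6 * M := by omega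
  refine ⟨V, inferInstance, G, hG, hcard, le_antisymm ?_ ?_⟩
  · obtain ⟨_, S, hS, hSc⟩ := upper hG (by omega)
    rw [hcard] at hSc
    exact (totalDomination_le hS).trans hSc
  · have hne : {k | ∃ S : Finset V, S.card = k ∧ ∀ v, ∃ u ∈ S, G.Adj v u}.Nonempty := by
      obtain ⟨_, S, hS, _⟩ := upper hG (by omega)
      exact ⟨_, S, rfl, hS⟩
    obtain ⟨S, hS1, hS2⟩ := Nat.sInf_mem hne
    have h7 := h6 S hS2
    rw [hS1] at h7
    refine le_trans ?_ h7
    omega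

lemma g_eq {n : ℕ} (hn : 30 ≤ n) (h6 : 6 ∣ n) : g n = n / 3 + 2 * ((n + 6) / 36) := by
  refine IsGreatest.csSup_eq ⟨values_mem hn h6, ?_⟩
  intro k hk
  exact (values_le (by omega) hk).2

lemma orders_iff {n : ℕ} (hn : 30 ≤ n) : n ∈ orders ↔ 6 ∣ n := by
  constructor
  · rintro ⟨k, hk⟩
    exact (values_le (by omega) hk).1
  · intro h
    exact ⟨_, values_mem hn h⟩

lemma cStar_eq : cStar = 7 / 18 := by
  have hne : (atTop ⊓ 𝓟 orders : Filter ℕ).NeBot := by
    rw [← Filter.frequently_mem_iff_neBot, Filter.frequently_atTop]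
    intro a
    refine ⟨6 * (a + 5), by omega, ?_⟩
    rw [orders_iff (by omega)]
    exact ⟨_, rfl⟩
  have hl : atTop ⊓ 𝓟 orders ≤ (atTop : Filter ℕ) := inf_le_left
  have hinv : Tendsto (fun n : ℕ => ((n : ℝ))⁻¹) (atTop ⊓ 𝓟 orders) (𝓝 0) :=
    tendsto_inv_atTop_nhds_zero_nat.mono_left hl
  have hlow : Tendsto (fun n : ℕ => (7 / 18 : ℝ) - 2 * ((n : ℝ))⁻¹) (atTop ⊓ 𝓟 orders)
      (𝓝 (7 / 18)) := by
    have := (tendsto_const_nhds (x := (7 / 18 : ℝ))).sub (hinv.const_mul 2)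
    simpa using this
  have hup : Tendsto (fun n : ℕ => (7 / 18 : ℝ) + 1 * ((n : ℝ))⁻¹) (atTop ⊓ 𝓟 orders)
      (𝓝 (7 / 18)) := by
    have := (tendsto_const_nhds (x := (7 / 18 : ℝ))).add (hinv.const_mul 1)
    simpa using this
  refine Tendsto.limsup_eq ?_
  have hev : ∀ᶠ n : ℕ in atTop ⊓ 𝓟 orders, (30 ≤ n ∧ 6 ∣ n) := by
    rw [Filter.eventually_inf_principal]
    filter_upwards [eventually_ge_atTop 30] with n hn ho
    exact ⟨hn, (orders_iff hn).mp ho⟩
  refine tendsto_of_tendsto_of_tendsto_of_le_of_le' hlow hup ?_ ?_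
  · filter_upwards [hev] with n ⟨hn, h6⟩
    have hn0 : (0 : ℝ) < n := by exact_mod_cast (by omega : 0 < n)
    rw [g_eq hn h6, le_div_iff₀ hn0]
    have h1 : 7 * n ≤ 18 * (n / 3 + 2 * ((n + 6) / 36)) + 36 := by omega
    have h2 : (7 : ℝ) * n ≤ 18 * ((n / 3 + 2 * ((n + 6) / 36) : ℕ) : ℝ) + 36 := by
      exact_mod_cast h1
    have h3 : ((7 / 18 : ℝ) - 2 * ((n : ℝ))⁻¹) * n = 7 / 18 * n - 2 := by
      field_simp
    rw [h3]
    linarith
  · filter_upwards [hev] with n ⟨hn, h6⟩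
    have hn0 : (0 : ℝ) < n := by exact_mod_cast (by omega : 0 < n)
    rw [g_eq hn h6, div_le_iff₀ hn0]
    have h1 : 18 * (n / 3 + 2 * ((n + 6) / 36)) ≤ 7 * n + 18 := by omega
    have h2 : 18 * ((n / 3 + 2 * ((n + 6) / 36) : ℕ) : ℝ) ≤ 7 * n + 18 := by
      exact_mod_cast h1
    have h3 : ((7 / 18 : ℝ) + 1 * ((n : ℝ))⁻¹) * n = 7 / 18 * n + 1 := by
      field_simp
    rw [h3]
    linarith

/-- For every `n ≥ 30` the class contains a graph of order `n` iff `6 ∣ n`, and then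
`g n = n / 3 + 2 * ⌊(n + 6) / 36⌋`; moreover `c* = 7 / 18`. -/
theorem result :
    (∀ n : ℕ, 30 ≤ n → (n ∈ orders ↔ 6 ∣ n)) ∧
    (∀ n : ℕ, 30 ≤ n → 6 ∣ n → g n = n / 3 + 2 * ((n + 6) / 36)) ∧
    cStar = 7 / 18 :=
  ⟨fun _ hn => orders_iff hn, fun _ hn h6 => g_eq hn h6, cStar_eq⟩

end Pool.Agent.Results.MP_e52bc6_co.TotalDominationExact
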